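import Pool.Agent.H80.PK.KStmts

/-!
Row HFC of the board pkt (helper45).
-/

set_option autoImplicit false

namespace Pool.PK

open Filter Topology

theorem hfc_dev_cont (A : Type) [NormedRing A] : Continuous (dev : A → A) := by
  unfold dev
  exact continuous_const.mul (continuous_id.mul (continuous_const.sub continuous_id))

theorem hfc_norm_pow {A : Type} [NormedRing A] (y : A) (j : ℕ) :
    ‖y ^ j‖ ≤ (‖(1 : A)‖ + 1) * ‖y‖ ^ j := by
  rcases Nat.eq_zero_or_pos j with rfl | hj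
  · simp
  · have h1 := norm_pow_le' y hj
    have h2 := norm_nonneg (1 : A)
    have h3 : 0 ≤ ‖y‖ ^ j := by positivity
    nlinarith

theorem HFC (hC : COEStmt) : HFCStmt := by
  intro A _ _ _ x hx
  have h0 : Tendsto (fun k : ℕ => ‖dev x ^ k‖) atTop (𝓝 0) := by
    have := hx.norm
    rwa [norm_zero] at this
  obtain ⟨m0, hm0⟩ := (h0.eventually (gt_mem_nhds (by norm_num : (0 : ℝ) < 1 / 2))).exists_forall_of_atTop
  set m : ℕ := m0 + 1 with hm
  have hm1 : ‖dev x ^ m‖ < 1 / 2 := hm0 m (by omega)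
  have hmpos : 0 < m := Nat.succ_pos m0
  set M : ℝ := ‖dev x‖ + 1 with hM
  have hM1 : 1 ≤ M := by have := norm_nonneg (dev x); linarith
  set D : ℝ := (‖(1 : A)‖ + 1) * M ^ m with hD
  have hD0 : 0 ≤ D := by positivity
  set s : Set A := {x' | ‖dev x' ^ m‖ < 1 / 2} ∩ {x' | ‖dev x'‖ < M} with hs
  have hcd := hfc_dev_cont A
  have hso : IsOpen s := (isOpen_lt (hcd.pow m).norm continuous_const).inter
    (isOpen_lt hcd.norm continuous_const)
  have hxs : x ∈ s := ⟨hm1, by show ‖dev x‖ < M; linarith⟩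
  set ρ : ℝ := (1 / 2 : ℝ) ^ ((m : ℝ)⁻¹) with hρ
  have hρ0 : 0 < ρ := Real.rpow_pos_of_pos (by norm_num) _
  have hρ1 : ρ < 1 := Real.rpow_lt_one (by norm_num) (by norm_num) (by positivity)
  have hρm : ρ ^ m = 1 / 2 := Real.rpow_inv_natCast_pow (by norm_num) hmpos.ne'
  have key : ∀ x' ∈ s, ∀ q j, j < m → ‖dev x' ^ (m * q + j)‖ ≤ (1 / 2) ^ q * D := by
    intro x' hx' q j hj
    induction q with
    | zero =>
      rw [mul_zero, zero_add, pow_zero, one_mul]
      refine (hfc_norm_pow _ _).trans ?_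
      apply mul_le_mul_of_nonneg_left _ (by positivity)
      have h1 : ‖dev x'‖ ^ j ≤ M ^ j := pow_le_pow_left₀ (norm_nonneg _) hx'.2.le _
      exact h1.trans (pow_le_pow_right₀ hM1 hj.le)
    | succ q ih =>
      have e : dev x' ^ (m * (q + 1) + j) = dev x' ^ m * dev x' ^ (m * q + j) := by
        rw [← pow_add]
        congr 1
        ring
      rw [e]
      calc ‖dev x' ^ m * dev x' ^ (m * q + j)‖ ≤ ‖dev x' ^ m‖ * ‖dev x' ^ (m * q + j)‖ :=
            norm_mul_le _ _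
        _ ≤ (1 / 2) * ((1 / 2) ^ q * D) :=
            mul_le_mul (le_of_lt hx'.1) ih (norm_nonneg _) (by norm_num)
        _ = (1 / 2) ^ (q + 1) * D := by rw [pow_succ]; ring
  have key2 : ∀ k : ℕ, ∀ x' ∈ s, ‖((co k : ℝ) : ℂ) • dev x' ^ k‖ ≤ 2 * D * ρ ^ k := by
    intro k x' hx'
    have h1 := key x' hx' (k / m) (k % m) (Nat.mod_lt _ hmpos)
    rw [Nat.div_add_mod] at h1
    have h2 : (1 / 2 : ℝ) ^ (k / m + 1) ≤ ρ ^ k := by
      rw [← hρm, ← pow_mul]
      apply pow_le_pow_of_le_one hρ0.le hρ1.le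
      have := Nat.lt_div_mul_add hmpos (a := k)
      nlinarith
    rw [pow_succ] at h2
    have h3 : ‖((co k : ℝ) : ℂ)‖ ≤ 1 := by
      rw [Complex.norm_real, Real.norm_of_nonneg (hC.1 k).1]
      exact (hC.1 k).2
    rw [norm_smul]
    calc ‖((co k : ℝ) : ℂ)‖ * ‖dev x' ^ k‖ ≤ 1 * ‖dev x' ^ k‖ :=
          mul_le_mul_of_nonneg_right h3 (norm_nonneg _)
      _ = ‖dev x' ^ k‖ := one_mul _
      _ ≤ (1 / 2) ^ (k / m) * D := h1
      _ ≤ (2 * ρ ^ k) * D := mul_le_mul_of_nonneg_right (by linarith) hD0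
      _ = 2 * D * ρ ^ k := by ring
  have hsum : Summable fun k : ℕ => 2 * D * ρ ^ k :=
    (summable_geometric_of_lt_one hρ0.le hρ1).mul_left _
  have hcont : ContinuousOn (fun x' : A => ∑' k : ℕ, ((co k : ℝ) : ℂ) • dev x' ^ k) s :=
    continuousOn_tsum (fun k => ((hcd.pow k).const_smul _).continuousOn) hsum key2
  have hca := hcont.continuousAt (hso.mem_nhds hxs)
  have h2 : ContinuousAt (fun x' : A => 1 + (2 * x' - 1) *
      ∑' k : ℕ, ((co k : ℝ) : ℂ) • dev x' ^ k) x := by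
    have h3 : ContinuousAt (fun x' : A => 2 * x' - 1) x :=
      ((continuous_const.mul continuous_id).sub continuous_const).continuousAt
    exact continuousAt_const.add (h3.mul hca)
  exact h2.const_smul _

end Pool.PK
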