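import Pool.Agent.H80.PK.GStmts

/-!
Row HLD of the board pkt (helper45).
-/

set_option autoImplicit false

namespace Pool.PK

open MeasureTheory Filter Topology
open scoped Pointwise ENNReal

theorem hld_rpow {x e : ℝ} (hx : 0 ≤ x) (he0 : 0 ≤ e) (he1 : e ≤ 1) : x ^ e ≤ 1 + x := by
  rcases le_total x 1 with h | h
  · have := Real.rpow_le_one hx h he0
    linarith
  · have := Real.rpow_le_rpow_of_exponent_le h he1
    rw [Real.rpow_one] at this
    linarith

theorem HLD : HLDStmt := by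
  intro G _ _ _ _ _ _ _ μ _ p hp K hK f hf
  have hm : MemLp (f.1 : G → ℂ) p μ := f.2.1.memLp_of_hasCompactSupport f.2.2
  have hsupp : Function.support (f.1 : G → ℂ) ⊆ K := by
    intro x hx
    by_contra h
    exact hx (hf x h)
  have hKf : μ K ≠ ∞ := hK.measure_lt_top.ne
  have h1 : eLpNorm (f.1 : G → ℂ) 1 μ = eLpNorm (f.1 : G → ℂ) 1 (μ.restrict K) :=
    (eLpNorm_restrict_eq_of_support_subset hsupp).symm
  have h2 : eLpNorm (f.1 : G → ℂ) p μ = eLpNorm (f.1 : G → ℂ) p (μ.restrict K) :=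
    (eLpNorm_restrict_eq_of_support_subset hsupp).symm
  have h3 := eLpNorm_le_eLpNorm_mul_rpow_measure_univ hp (μ := μ.restrict K)
    (f := (f.1 : G → ℂ)) hm.1.restrict
  rw [← h1, ← h2, Measure.restrict_apply_univ] at h3
  set e : ℝ := 1 / (1 : ℝ≥0∞).toReal - 1 / p.toReal with he
  have he1 : e ≤ 1 := by
    rw [he, ENNReal.toReal_one, div_one]
    have : 0 ≤ 1 / p.toReal := by positivity
    linarith
  have he0 : 0 ≤ e := by
    rw [he, ENNReal.toReal_one, div_one, sub_nonneg]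
    by_cases hpt : p = ∞
    · rw [hpt]; simp
    · have hp1 : 1 ≤ p.toReal := by
        have := ENNReal.toReal_mono hpt hp
        simpa using this
      rw [div_le_one (by linarith)]
      exact hp1
  have h4 : (μ K) ^ e ≠ ∞ := ENNReal.rpow_ne_top_of_nonneg he0 hKf
  have h5 := ENNReal.toReal_mono (ENNReal.mul_ne_top hm.2.ne h4) h3
  rw [ENNReal.toReal_mul, ← ENNReal.toReal_rpow] at h5
  show (eLpNorm (f.1 : G → ℂ) 1 μ).toReal ≤ (1 + (μ K).toReal) * (eLpNorm (f.1 : G → ℂ) p μ).toReal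
  refine h5.trans ?_
  rw [mul_comm]
  exact mul_le_mul_of_nonneg_right (hld_rpow ENNReal.toReal_nonneg he0 he1) ENNReal.toReal_nonneg

end Pool.PK
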